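import Pool.Agent.TH107.RF.Conv

set_option autoImplicit false

namespace Pool.Agent.Results.MP_d24c19_al.RankTwoHopfian

/-- The Artin group of a finite Coxeter matrix; an entry `0` stands for the label infinity, that is,
for no relation. -/
abbrev ArtinGroup {n : ℕ} (M : CoxeterMatrix (Fin n)) : Type :=
  PresentedGroup
    {r : FreeGroup (Fin n) | ∃ i j : Fin n, M.M i j ≠ 0 ∧
      r = ((List.range (M.M i j)).map
              (fun k => if Even k then FreeGroup.of i else FreeGroup.of j)).prod *
          (((List.range (M.M i j)).map
              (fun k => if Even k then FreeGroup.of j else FreeGroup.of i)).prod)⁻¹}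

/-- For every Artin group in which no three distinct generators `i, j, k` have `m_ij` and `m_jk`
finite and at least three and `m_ik` finite, every surjective endomorphism of every finitely
generated subgroup is injective. In particular the Artin group itself is Hopfian. -/
theorem result : ∀ (n : ℕ) (M : CoxeterMatrix (Fin n)),
    (∀ i j k : Fin n, i ≠ k → 3 ≤ M.M i j → 3 ≤ M.M j k → M.M i k = 0) →
    ∀ H : Subgroup (ArtinGroup M), H.FG →
      ∀ f : H →* H, Function.Surjective f → Function.Injective f := by
  intro n M hR
  have key : ∀ R : Set (FreeGroup (Fin n)), R = Pool.Agent.TH107.RF.rels M →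
      ∀ H : Subgroup (PresentedGroup R), H.FG →
        ∀ f : H →* H, Function.Surjective f → Function.Injective f := by
    rintro R rfl H hH f hf
    exact Pool.Agent.TH107.RF.hopf_of_res
      (fun g hg => Pool.Agent.TH107.RF.res_finite M hR hg) H hH f hf
  exact key _ (Pool.Agent.TH107.RF.rels_eq M)

end Pool.Agent.Results.MP_d24c19_al.RankTwoHopfian
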